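import Pool.Agent.Run7.h166.PC.Window

/-!
# The numbers `8 d ^ 2 + 1 = 64 b ^ 2 + 9`

`8 d ^ 2 + 1` is the norm of `1 + 2 (1 + √2) ^ (4 m)`.
-/

set_option autoImplicit false
set_option maxHeartbeats 4000000

open Finset Real

namespace Pool.Agent.Run7.h166.QC

open Pool.Agent.Run7.h166.PC

/-- `1 + 2 (1 + √2) ^ (4 m)` -/
def al (m : ℕ) : R := 1 + 2 * om ^ (4 * m)

/-- the conjugate -/
def al' (m : ℕ) : R := 1 + 2 * om' ^ (4 * m)

lemma star_om : star om = om' := by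
  unfold om om'
  rw [QuadraticAlgebra.star_mk]
  norm_num

lemma star_two : star (2 : R) = 2 := by
  have h1 : (2 : R) = 1 + 1 := by norm_num
  rw [h1, star_add, star_one]

lemma star_al (m : ℕ) : star (al m) = al' m := by
  rw [al, al', star_add, star_one, star_mul', star_pow, star_om, star_two]

lemma star_int (z : ℤ) : star (z : R) = (z : R) := by
  ext
  · rw [QuadraticAlgebra.re_star]; simp
  · rw [QuadraticAlgebra.im_star]; simp

lemma nrm_star (z : R) : ((nrm z : ℤ) : R) = z * star z := by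
  ext
  · rw [QuadraticAlgebra.re_intCast, Int.cast_id, nrm]; simp; ring
  · rw [QuadraticAlgebra.im_intCast]; simp; ring

lemma al_mul (m : ℕ) (b d : ℤ) (h : (d : ℝ) + b * √8 = (3 + √8) ^ m) :
    ((8 * d ^ 2 + 1 : ℤ) : R) = al m * al' m := by
  have h8 : √8 = 2 * √2 := by
    rw [show (8 : ℝ) = 2 ^ 2 * 2 by norm_num, Real.sqrt_mul (by norm_num), Real.sqrt_sq (by norm_num)]
  have h3 : (d : ℝ) + ((2 * b : ℤ) : ℝ) * √2 = (1 + √2) ^ (2 * m) := by
    rw [pow_mul]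
    have : (1 + √2) ^ 2 = 3 + √8 := by rw [h8]; nlinarith [s2]
    rw [this, ← h, h8]
    push_cast
    ring
  obtain ⟨-, hd⟩ := xy_eq h3
  have h4 := luc2R (2 * m)
  have h5 : ((2 * d : ℤ) : R) = om ^ (2 * m) + om' ^ (2 * m) := by
    rw [← h4, hd]
    congr 1
    ring
  have h6 : om ^ (2 * m) * om' ^ (2 * m) = 1 := by
    rw [← mul_pow, om_mul_om', pow_mul]; simp
  have e1 : om ^ (4 * m) = om ^ (2 * m) * om ^ (2 * m) := by rw [← pow_add]; congr 1; ring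
  have e2 : om' ^ (4 * m) = om' ^ (2 * m) * om' ^ (2 * m) := by rw [← pow_add]; congr 1; ring
  have e3 : ((8 * d ^ 2 + 1 : ℤ) : R) = 2 * ((2 * d : ℤ) : R) ^ 2 + 1 := by push_cast; ring
  rw [e3, h5, al, al', e1, e2]
  linear_combination (4 - 4 * (om ^ (2 * m) * om' ^ (2 * m) + 1)) * h6

lemma al_dvd_two {m : ℕ} {z : R} (h : al m ∣ 2 * z) : al m ∣ z := by
  have e : z = al m * z - om ^ (4 * m) * (2 * z) := by rw [al]; ring
  rw [e]
  exact dvd_sub (Dvd.intro _ rfl) (Dvd.dvd.mul_left h _)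

/-- `√2` -/
def t2 : R := ⟨-1, 1⟩

lemma t2_sq : t2 * t2 = 2 := by
  unfold t2; ext <;> simp

lemma r8_t2 : r8 = 2 * t2 := by
  rw [r8_eq]; unfold t2; ext <;> simp

lemma dvd_three {m : ℕ} {b d : ℤ} (h : (d : ℝ) + b * √8 = (3 + √8) ^ m) {N : ℤ} (hN : al m ∣ (N : R)) :
    8 * d ^ 2 + 1 ∣ 3 * N := by
  obtain ⟨z1, h1⟩ := hN
  have h2 : (N : R) = al' m * star z1 := by
    rw [← star_int N, h1, star_mul', star_al]
  have hM := al_mul m b d h
  have h3 : ((3 * N : ℤ) : R) = ((8 * d ^ 2 + 1 : ℤ) : R) * (2 * om ^ (4 * m) * z1 - star z1) := by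
    have h4 : om ^ (4 * m) * om' ^ (4 * m) = 1 := by
      rw [← mul_pow, om_mul_om', pow_mul]
      norm_num
    have h5 : (3 : R) = 2 * om ^ (4 * m) * al' m - al m := by
      rw [al, al']
      linear_combination (-4) * h4
    push_cast at hM ⊢
    rw [hM]
    calc (3 : R) * (N : R) = 2 * om ^ (4 * m) * al' m * (N : R) - al m * (N : R) := by rw [h5]; ring
      _ = 2 * om ^ (4 * m) * al' m * (al m * z1) - al m * (al' m * star z1) := by rw [← h1, ← h2]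
      _ = _ := by ring
  have h6 := ((dvd_iff' _ _).1 ⟨_, h3⟩).1
  rw [QuadraticAlgebra.re_intCast, Int.cast_id] at h6
  exact h6

lemma red4 {m : ℕ} (hm : 0 < m) {u : ℕ} (hu : u < 12 * m) :
    ∃ ε : ℤ, |ε| ≤ 4 ∧ al m ∣ 4 * om ^ u - (ε : R) * om ^ (u % (4 * m)) := by
  obtain ⟨k, hk⟩ : ∃ k, k = u / (4 * m) := ⟨_, rfl⟩
  have hk2 : k < 3 := by
    rw [hk, Nat.div_lt_iff_lt_mul (by omega)]; omega
  obtain ⟨e, he⟩ : ∃ e, e = u % (4 * m) := ⟨_, rfl⟩
  have hu2 : u = 4 * m * k + e := by rw [hk, he]; exact (Nat.div_add_mod _ _).symm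
  rw [← he, hu2, pow_add, pow_mul]
  obtain ⟨X, hX⟩ : ∃ X, X = om ^ (4 * m) := ⟨_, rfl⟩
  have hal : al m = 1 + 2 * X := by rw [al, hX]
  rw [← hX, hal]
  interval_cases k
  · exact ⟨4, by norm_num, by simp⟩
  · refine ⟨-2, by norm_num, ⟨2 * om ^ e, ?_⟩⟩
    push_cast
    ring
  · refine ⟨1, by norm_num, ⟨(2 * X - 1) * om ^ e, ?_⟩⟩
    push_cast
    ring

lemma red4' {m : ℕ} (hm : 0 < m) {C i : ℕ} (hi : i ≤ C) (hC : C < 12 * m) :
    ∃ ε : ℤ, |ε| ≤ 4 ∧ al m ∣ 4 * (om ^ C * om' ^ i) - (ε : R) * om ^ ((C - i) % (4 * m)) := by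
  obtain ⟨ε, h1, h2⟩ := red4 hm (u := C - i) (by omega)
  have e : om ^ C * om' ^ i = (-1) ^ i * om ^ (C - i) := by
    obtain ⟨v, rfl⟩ := Nat.exists_eq_add_of_le hi
    rw [Nat.add_sub_cancel_left, pow_add, ← om_mul_om']
    ring
  refine ⟨(-1) ^ i * ε, ?_, ?_⟩
  · rcases neg_one_pow_eq_or ℤ i with h | h <;> rw [h] <;> simpa using h1
  · rw [e]
    have e2 : 4 * ((-1) ^ i * om ^ (C - i)) - (((-1) ^ i * ε : ℤ) : R) * om ^ ((C - i) % (4 * m)) =
      (-1) ^ i * (4 * om ^ (C - i) - (ε : R) * om ^ ((C - i) % (4 * m))) := by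
      push_cast; ring
    rw [e2]
    exact Dvd.dvd.mul_left h2 _

/-- **The core.** -/
theorem core {m : ℕ} (hm : 0 < m) {b d : ℤ} (h : (d : ℝ) + b * √8 = (3 + √8) ^ m) (S : Finset ℕ)
    (hS : ∀ i ∈ S, i ≤ 4 * m) (x x' : ℕ → ℤ) (C : ℕ) (hC1 : 4 * m ≤ C) (hC2 : C < 8 * m)
    (hnd : ¬ 8 * d ^ 2 + 1 ∣ 3 * ∑ i ∈ S, (x i * P i + x' i * P (i + 1))) :
    (Int.gcd (8 * d ^ 2 + 1) (∑ i ∈ S, (x i * P i + x' i * P (i + 1))) : ℝ) ≤
      16 * ((∑ i ∈ S, (|(x i : ℝ)| + 3 * |(x' i : ℝ)|) *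
        ((1 + √2) ^ ((C + i) % (4 * m)) + (1 + √2) ^ ((C - i) % (4 * m)))) *
      (∑ i ∈ S, (|(x i : ℝ)| + 3 * |(x' i : ℝ)|) *
        (|1 - √2| ^ ((C + i) % (4 * m)) + |1 - √2| ^ ((C - i) % (4 * m))))) := by
  set N : ℤ := ∑ i ∈ S, (x i * P i + x' i * P (i + 1)) with hN
  have hM := al_mul m b d h
  have hex1 : ∀ i : ℕ, ∃ ε : ℤ, i ∈ S → |ε| ≤ 4 ∧
      al m ∣ 4 * (om ^ C * om ^ i) - (ε : R) * om ^ ((C + i) % (4 * m)) := by
    intro i
    by_cases hi : i ∈ S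
    · have := hS i hi
      obtain ⟨ε, h1, h2⟩ := red4 hm (u := C + i) (by omega)
      rw [pow_add] at h2
      exact ⟨ε, fun _ => ⟨h1, h2⟩⟩
    · exact ⟨0, fun h => absurd h hi⟩
  have hex2 : ∀ i : ℕ, ∃ ε : ℤ, i ∈ S → |ε| ≤ 4 ∧
      al m ∣ 4 * (om ^ C * om' ^ i) - (ε : R) * om ^ ((C - i) % (4 * m)) := by
    intro i
    by_cases hi : i ∈ S
    · have := hS i hi
      obtain ⟨ε, h1, h2⟩ := red4' hm (C := C) (i := i) (by omega) (by omega)
      exact ⟨ε, fun _ => ⟨h1, h2⟩⟩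
    · exact ⟨0, fun h => absurd h hi⟩
  choose ε hε using hex1
  choose ε' hε' using hex2
  obtain ⟨Y, hY⟩ : ∃ Y : R, Y = ∑ i ∈ S, (((x i : R) + x' i * om) * ((ε i : R) * om ^ ((C + i) % (4 * m))) -
      ((x i : R) + x' i * om') * ((ε' i : R) * om ^ ((C - i) % (4 * m)))) := ⟨_, rfl⟩
  have hcong : al m ∣ 4 * (om ^ C * (r8 * (N : R))) - Y := by
    have e : 4 * (om ^ C * (r8 * (N : R))) - Y =
        ∑ i ∈ S, (((x i : R) + x' i * om) * (4 * (om ^ C * om ^ i) - (ε i : R) * om ^ ((C + i) % (4 * m))) -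
          ((x i : R) + x' i * om') * (4 * (om ^ C * om' ^ i) - (ε' i : R) * om ^ ((C - i) % (4 * m)))) := by
      rw [hY, hN]
      push_cast
      rw [mul_sum, mul_sum, mul_sum, ← sum_sub_distrib]
      refine sum_congr rfl fun i _ => ?_
      have := blockR (x i) (x' i) i
      push_cast at this
      rw [this]
      ring
    rw [e]
    exact dvd_sum fun i hi => dvd_sub (Dvd.dvd.mul_left (hε i hi).2 _) (Dvd.dvd.mul_left (hε' i hi).2 _)
  -- `Y ≠ 0`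
  have hY0 : Y ≠ 0 := by
    intro h0
    rw [h0, sub_zero] at hcong
    apply hnd
    apply dvd_three h
    have h1 : al m ∣ om' ^ C * (4 * (om ^ C * (r8 * (N : R)))) := Dvd.dvd.mul_left hcong _
    have h2 : om' ^ C * (4 * (om ^ C * (r8 * (N : R)))) = (-1) ^ C * (2 * (2 * (2 * (t2 * (N : R))))) := by
      rw [← om_mul_om', mul_pow, r8_t2]; ring
    rw [h2] at h1
    have h3 : al m ∣ 2 * (2 * (2 * (t2 * (N : R)))) := by
      have h4 := Dvd.dvd.mul_left h1 ((-1) ^ C)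
      rw [← mul_assoc, ← mul_pow] at h4
      simpa using h4
    have h5 := al_dvd_two (al_dvd_two (al_dvd_two h3))
    have h6 : al m ∣ t2 * (t2 * (N : R)) := Dvd.dvd.mul_left h5 _
    rw [← mul_assoc, t2_sq] at h6
    exact al_dvd_two h6
  -- the gcd divides the norm of `Y`
  obtain ⟨g, hg⟩ : ∃ g : ℕ, g = Int.gcd (8 * d ^ 2 + 1) N := ⟨_, rfl⟩
  have hgY : (g : ℤ) ∣ nrm Y := by
    obtain ⟨Z, hZ⟩ := hcong
    have hYe : Y = 4 * (om ^ C * (r8 * (N : R))) - al m * Z := by rw [← hZ]; ring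
    have h1 : ((g : ℤ) : R) ∣ al m * al' m := by
      rw [← hM, hg]; exact (Int.castRingHom R).map_dvd (Int.gcd_dvd_left _ _)
    have h2 : ((g : ℤ) : R) ∣ (N : R) := by
      rw [hg]; exact (Int.castRingHom R).map_dvd (Int.gcd_dvd_right _ _)
    have h3 : ((nrm Y : ℤ) : R) = (N : R) * (4 * (om ^ C * r8) * star Y) -
        al m * Z * star (4 * (om ^ C * r8)) * (N : R) + (al m * al' m) * (Z * star Z) := by
      rw [nrm_star]
      have hs : star Y = star (4 * (om ^ C * r8)) * (N : R) - al' m * star Z := by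
        rw [hYe, star_sub, star_mul' (al m) Z, star_al]
        have : (4 : R) * (om ^ C * (r8 * (N : R))) = 4 * (om ^ C * r8) * (N : R) := by ring
        rw [this, star_mul', star_int]
      calc Y * star Y = (4 * (om ^ C * (r8 * (N : R))) - al m * Z) * star Y := by rw [← hYe]
        _ = (N : R) * (4 * (om ^ C * r8) * star Y) - al m * Z * star Y := by ring
        _ = (N : R) * (4 * (om ^ C * r8) * star Y) -
            al m * Z * (star (4 * (om ^ C * r8)) * (N : R) - al' m * star Z) := by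
              rw [show al m * Z * star Y = al m * Z * (star (4 * (om ^ C * r8)) * (N : R) - al' m * star Z) from by
                rw [← hs]]
        _ = _ := by ring
    have h4 : ((g : ℤ) : R) ∣ ((nrm Y : ℤ) : R) := by
      rw [h3]
      exact dvd_add (dvd_sub (Dvd.dvd.mul_right h2 _) (Dvd.dvd.mul_left h2 _)) (Dvd.dvd.mul_right h1 _)
    have h5 := ((dvd_iff' _ _).1 h4).1
    simpa using h5
  have hnz : nrm Y ≠ 0 := fun h => hY0 (eq_zero_of_nrm h)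
  have hle : (g : ℤ) ≤ |nrm Y| := Int.le_of_dvd (abs_pos.2 hnz) ((dvd_abs _ _).2 hgY)
  have hler : (g : ℝ) ≤ |e1 Y| * |e2 Y| := by
    rw [← abs_mul, ← nrm_eq]
    exact_mod_cast hle
  have t2' : ∀ i, |(x i : ℝ) + x' i * (1 + √2)| ≤ |(x i : ℝ)| + 3 * |(x' i : ℝ)| := by
    intro i
    refine (abs_add_le _ _).trans ?_
    rw [abs_mul, abs_of_pos w_pos]
    nlinarith [abs_nonneg (x' i : ℝ), s2_lt]
  have t3 : ∀ i, |(x i : ℝ) + x' i * (1 - √2)| ≤ |(x i : ℝ)| + 3 * |(x' i : ℝ)| := by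
    intro i
    refine (abs_add_le _ _).trans ?_
    rw [abs_mul, abs_w']
    nlinarith [abs_nonneg (x' i : ℝ), s2_lt]
  have hεr : ∀ i ∈ S, |(ε i : ℝ)| ≤ 4 := fun i hi => by exact_mod_cast (hε i hi).1
  have hεr' : ∀ i ∈ S, |(ε' i : ℝ)| ≤ 4 := fun i hi => by exact_mod_cast (hε' i hi).1
  have hterm : ∀ (A E p : ℝ) (a : ℝ), |A| ≤ a → |E| ≤ 4 → 0 ≤ a → |A * (E * p)| ≤ a * (4 * |p|) := by
    intro A E p a hA hE ha
    rw [abs_mul, abs_mul]
    exact mul_le_mul hA (mul_le_mul_of_nonneg_right hE (abs_nonneg _)) (by positivity) ha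
  have b1 : |e1 Y| ≤ 4 * ∑ i ∈ S, (|(x i : ℝ)| + 3 * |(x' i : ℝ)|) *
        ((1 + √2) ^ ((C + i) % (4 * m)) + (1 + √2) ^ ((C - i) % (4 * m))) := by
    rw [hY, map_sum, mul_sum]
    refine (abs_sum_le_sum_abs _ _).trans (sum_le_sum fun i hi => ?_)
    simp only [map_sub, map_mul, map_add, map_intCast, map_pow, e1_om, e1_om']
    have t1 := abs_sub (((x i : ℝ) + x' i * (1 + √2)) * ((ε i : ℝ) * (1 + √2) ^ ((C + i) % (4 * m))))
      (((x i : ℝ) + x' i * (1 - √2)) * ((ε' i : ℝ) * (1 + √2) ^ ((C - i) % (4 * m))))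
    have t4 := hterm _ (ε i : ℝ) ((1 + √2) ^ ((C + i) % (4 * m))) _ (t2' i) (hεr i hi) (by positivity)
    have t5 := hterm _ (ε' i : ℝ) ((1 + √2) ^ ((C - i) % (4 * m))) _ (t3 i) (hεr' i hi) (by positivity)
    rw [abs_of_pos (pow_pos w_pos _)] at t4 t5
    refine t1.trans ((add_le_add t4 t5).trans (le_of_eq ?_))
    ring
  have b2 : |e2 Y| ≤ 4 * ∑ i ∈ S, (|(x i : ℝ)| + 3 * |(x' i : ℝ)|) *
        (|1 - √2| ^ ((C + i) % (4 * m)) + |1 - √2| ^ ((C - i) % (4 * m))) := by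
    rw [hY, map_sum, mul_sum]
    refine (abs_sum_le_sum_abs _ _).trans (sum_le_sum fun i hi => ?_)
    simp only [map_sub, map_mul, map_add, map_intCast, map_pow, e2_om, e2_om']
    have t1 := abs_sub (((x i : ℝ) + x' i * (1 - √2)) * ((ε i : ℝ) * (1 - √2) ^ ((C + i) % (4 * m))))
      (((x i : ℝ) + x' i * (1 + √2)) * ((ε' i : ℝ) * (1 - √2) ^ ((C - i) % (4 * m))))
    have t4 := hterm _ (ε i : ℝ) ((1 - √2) ^ ((C + i) % (4 * m))) _ (t3 i) (hεr i hi) (by positivity)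
    have t5 := hterm _ (ε' i : ℝ) ((1 - √2) ^ ((C - i) % (4 * m))) _ (t2' i) (hεr' i hi) (by positivity)
    rw [abs_pow] at t4 t5
    refine t1.trans ((add_le_add t4 t5).trans (le_of_eq ?_))
    ring
  rw [← hg]
  refine hler.trans ((mul_le_mul b1 b2 (abs_nonneg _) ((abs_nonneg _).trans b1)).trans (le_of_eq ?_))
  ring

end Pool.Agent.Run7.h166.QC
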