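import Pool.Agent.Run7.h166.QC.Core

/-!
# The numbers `8 d ^ 2 + 1 = 64 b ^ 2 + 9`: the parts of the theorem
-/

set_option autoImplicit false
set_option maxHeartbeats 4000000

open Finset Real

namespace Pool.Agent.Run7.h166.QC

open Pool.Agent.Run7.h166.PC

lemma e1_two : e1 2 = 2 := by rw [e1_apply]; simp

lemma M_lower {m : ℕ} {b d : ℤ} (h : (d : ℝ) + b * √8 = (3 + √8) ^ m) :
    (1 + √2) ^ (4 * m) ≤ ((8 * d ^ 2 + 1 : ℤ) : ℝ) := by
  have h1 := al_mul m b d h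
  have h2 : ((8 * d ^ 2 + 1 : ℤ) : ℝ) = (1 + 2 * (1 + √2) ^ (4 * m)) * (1 + 2 * (1 - √2) ^ (4 * m)) := by
    have := congrArg e1 h1
    rw [map_intCast, map_mul, al, al'] at this
    simpa [e1_om, e1_om', e1_two] using this
  rw [h2]
  have h3 : 0 ≤ (1 - √2) ^ (4 * m) := by
    have : (1 - √2) ^ (4 * m) = ((1 - √2) ^ (2 * m)) ^ 2 := by rw [← pow_mul]; congr 1; ring
    rw [this]; positivity
  have h4 : (0 : ℝ) < (1 + √2) ^ (4 * m) := pow_pos w_pos _
  nlinarith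

/-- **`s` pairs.** -/
theorem partA {m : ℕ} (hm : 0 < m) {b d : ℤ} (h : (d : ℝ) + b * √8 = (3 + √8) ^ m) (S : Finset ℕ)
    (hS : ∀ i ∈ S, i ≤ 4 * m) (x x' : ℕ → ℤ)
    (hnd : ¬ 8 * d ^ 2 + 1 ∣ 3 * ∑ i ∈ S, (x i * P i + x' i * P (i + 1))) :
    (Int.gcd (8 * d ^ 2 + 1) (∑ i ∈ S, (x i * P i + x' i * P (i + 1))) : ℝ) ≤
      64 * (∑ i ∈ S, (|(x i : ℝ)| + 3 * |(x' i : ℝ)|)) ^ 2 * (1 + √2) ^ ((4 * m : ℝ) - 2 * m / S.card) := by
  have hs : 0 < S.card := by
    rw [card_pos]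
    by_contra h
    rw [not_nonempty_iff_eq_empty] at h
    apply hnd
    rw [h]; simp
  obtain ⟨l, hl⟩ : ∃ l, l = (2 * m - 1) / S.card := ⟨_, rfl⟩
  have hl1 : S.card * l < 2 * m := by
    have := Nat.mul_div_le (2 * m - 1) S.card
    rw [← hl] at this
    omega
  have hl2 : l ≤ 2 * m - 1 := by rw [hl]; exact Nat.div_le_self _ _
  obtain ⟨c, hc, hc2⟩ := FC.exists_rotation (n := 2 * m) (l := l) (by omega) S hl1
  have h4m : 2 * (2 * m) = 4 * m := by ring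
  rw [h4m] at hc hc2
  have hpt : ∀ i ∈ S, (c + 4 * m + i) % (4 * m) < 4 * m - l ∧ (c + 4 * m - i) % (4 * m) < 4 * m - l := by
    intro i hi
    have hi1 := hS i hi
    obtain ⟨h1, h2⟩ := hc2 i hi
    constructor
    · have e : c + 4 * m + i = c + i + 4 * m := by ring
      rw [e, Nat.add_mod_right]; exact h1
    · rcases Nat.eq_zero_or_pos i with h0 | h0
      · rw [h0] at h2 ⊢
        simpa using h2
      · have a1 : (4 * m - 1) * i + i = 4 * m * i := by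
          obtain ⟨t, ht⟩ : ∃ t, 4 * m = t + 1 := ⟨4 * m - 1, by omega⟩
          rw [ht, Nat.add_sub_cancel]; ring
        have a2 : 4 * m * (i - 1) + 4 * m = 4 * m * i := by
          obtain ⟨j, hj⟩ : ∃ j, i = j + 1 := ⟨i - 1, by omega⟩
          rw [hj, Nat.add_sub_cancel]; ring
        have e : c + (4 * m - 1) * i = (c + 4 * m - i) + 4 * m * (i - 1) := by omega
        rw [e, Nat.add_mul_mod_self_left] at h2
        exact h2
  have h1 := core hm h S hS x x' (c + 4 * m) (by omega) (by omega) hnd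
  set B : ℝ := ∑ i ∈ S, (|(x i : ℝ)| + 3 * |(x' i : ℝ)|) with hB
  have hB0 : 0 ≤ B := sum_nonneg fun i _ => by positivity
  have b1 : (∑ i ∈ S, (|(x i : ℝ)| + 3 * |(x' i : ℝ)|) *
        ((1 + √2) ^ ((c + 4 * m + i) % (4 * m)) + (1 + √2) ^ ((c + 4 * m - i) % (4 * m)))) ≤
      B * (2 * (1 + √2) ^ (4 * m - l - 1)) := by
    rw [hB, sum_mul]
    refine sum_le_sum fun i hi => mul_le_mul_of_nonneg_left ?_ (by positivity)
    have t1 : (1 + √2) ^ ((c + 4 * m + i) % (4 * m)) ≤ (1 + √2) ^ (4 * m - l - 1) :=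
      pow_le_pow_right₀ one_le_w (by have := (hpt i hi).1; omega)
    have t2 : (1 + √2) ^ ((c + 4 * m - i) % (4 * m)) ≤ (1 + √2) ^ (4 * m - l - 1) :=
      pow_le_pow_right₀ one_le_w (by have := (hpt i hi).2; omega)
    linarith
  have b2 : (∑ i ∈ S, (|(x i : ℝ)| + 3 * |(x' i : ℝ)|) *
        (|1 - √2| ^ ((c + 4 * m + i) % (4 * m)) + |1 - √2| ^ ((c + 4 * m - i) % (4 * m)))) ≤ B * 2 := by
    rw [hB, sum_mul]
    refine sum_le_sum fun i hi => mul_le_mul_of_nonneg_left ?_ (by positivity)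
    have t1 := pow_le_one₀ (n := (c + 4 * m + i) % (4 * m)) (abs_nonneg (1 - √2)) abs_w'_le
    have t2 := pow_le_one₀ (n := (c + 4 * m - i) % (4 * m)) (abs_nonneg (1 - √2)) abs_w'_le
    linarith
  have h2 : (Int.gcd (8 * d ^ 2 + 1) (∑ i ∈ S, (x i * P i + x' i * P (i + 1))) : ℝ) ≤
      64 * B ^ 2 * (1 + √2) ^ (4 * m - l - 1) := by
    refine h1.trans ((mul_le_mul_of_nonneg_left (mul_le_mul b1 b2 (sum_nonneg fun i _ => by positivity)
      (mul_nonneg hB0 (mul_nonneg zero_le_two (pow_pos w_pos _).le))) (by norm_num)).trans (le_of_eq ?_))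
    ring
  refine h2.trans (mul_le_mul_of_nonneg_left ?_ (by positivity))
  rw [← rpow_natCast]
  apply rpow_le_rpow_of_exponent_le one_le_w
  have hs' : (0 : ℝ) < S.card := by exact_mod_cast hs
  have e1 : ((4 * m - l - 1 : ℕ) : ℝ) = 4 * m - l - 1 := by
    have : 4 * m - l - 1 + (l + 1) = 4 * m := by omega
    have : ((4 * m - l - 1 : ℕ) : ℝ) + (l + 1) = 4 * m := by exact_mod_cast this
    linarith
  have e2 : (2 * m : ℝ) ≤ (l + 1) * S.card := by
    have : 2 * m ≤ (l + 1) * S.card := by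
      have := Nat.lt_mul_div_succ (2 * m - 1) hs
      rw [← hl] at this
      have e : (l + 1) * S.card = S.card * (l + 1) := by ring
      rw [e]
      omega
    exact_mod_cast this
  have e3 : (2 * m : ℝ) / S.card ≤ l + 1 := by
    rw [div_le_iff₀ hs']; exact e2
  rw [e1]
  linarith

/-- **Windows.** -/
theorem partB {m : ℕ} (hm : 0 < m) {b d : ℤ} (h : (d : ℝ) + b * √8 = (3 + √8) ^ m) (S : Finset ℕ)
    (hS : ∀ i ∈ S, i ≤ 4 * m) (x : ℕ → ℤ) (B : ℝ) (hx : ∀ i ∈ S, |(x i : ℝ)| ≤ B) (k l : ℕ) (hkl : k + l ≤ 4 * m)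
    (hgap : ∀ i ∈ S, (i < k ∨ k + l ≤ i) ∧ (4 * m < i + k ∨ k + l + i ≤ 4 * m)) (hl1 : 0 < l)
    (hnd : ¬ 8 * d ^ 2 + 1 ∣ 3 * ∑ i ∈ S, x i * P i) :
    (1 + √2) ^ l * (Int.gcd (8 * d ^ 2 + 1) (∑ i ∈ S, x i * P i) : ℝ) ≤
      512 * B ^ 2 * ((8 * d ^ 2 + 1 : ℤ) : ℝ) := by
  have hsum : ∑ i ∈ S, x i * P i = ∑ i ∈ S, (x i * P i + (fun _ => (0 : ℤ)) i * P (i + 1)) := by
    refine sum_congr rfl fun i _ => ?_
    simp
  obtain ⟨C, hC⟩ : ∃ C, C = 8 * m - (k + l) := ⟨_, rfl⟩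
  have h1 := core hm h S hS x (fun _ => 0) C (by omega) (by omega) (by rw [← hsum]; exact hnd)
  rw [← hsum] at h1
  have hSne : S.Nonempty := by
    by_contra h
    rw [not_nonempty_iff_eq_empty] at h
    apply hnd
    rw [h]; simp
  have hB0 : 0 ≤ B := by
    obtain ⟨i, hi⟩ := hSne
    exact (abs_nonneg _).trans (hx i hi)
  have e0 : ∀ i, |(x i : ℝ)| + 3 * |(((fun _ => 0 : ℕ → ℤ) i : ℤ) : ℝ)| = |(x i : ℝ)| := by
    intro i; simp
  simp only [e0] at h1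
  -- the points
  have hpos : ∀ j ≤ 4 * m, (j < k ∨ k + l ≤ j) → (k = 0 → j ≠ 4 * m) → (C + j) % (4 * m) < 4 * m - l := by
    intro j hj hj2 hj3
    rcases hj2 with h2 | h2
    · have : C + j = (4 * m - (k + l) + j) + 4 * m := by omega
      rw [this, Nat.add_mod_right, Nat.mod_eq_of_lt (by omega)]
      omega
    · rcases Nat.lt_or_ge (j - (k + l)) (4 * m - l) with h3 | h3
      · have : C + j = (j - (k + l)) + 4 * m * 2 := by omega
        rw [this, Nat.add_mul_mod_self_left, Nat.mod_eq_of_lt (by omega)]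
        exact h3
      · omega
  have hmirror : ∀ i ≤ 4 * m, (C - i) % (4 * m) = (C + (4 * m - i)) % (4 * m) := by
    intro i hi
    have : C + (4 * m - i) = (C - i) + 4 * m := by omega
    rw [this, Nat.add_mod_right]
  have hrot : ∀ i ∈ S, (C + i) % (4 * m) < 4 * m - l ∧ (C - i) % (4 * m) < 4 * m - l := by
    intro i hi
    have hi1 := hS i hi
    obtain ⟨h2, h3⟩ := hgap i hi
    refine ⟨hpos i hi1 h2 (by omega), ?_⟩
    rw [hmirror i hi1]
    exact hpos (4 * m - i) (by omega) (by omega) (by omega)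
  have hinjA : ∀ T : Finset ℕ, (∀ a ∈ T, ∀ b ∈ T, a < 4 * m ∧ b < 4 * m ∨ a = b) →
      Set.InjOn (fun i => (C + i) % (4 * m)) T := by
    intro T hT a ha b' hb hab
    rcases hT a ha b' hb with ⟨h1, h2⟩ | h3
    · have h4 : C + a ≡ C + b' [MOD 4 * m] := hab
      have h5 : a ≡ b' [MOD 4 * m] := Nat.ModEq.add_left_cancel' C h4
      have h6 : a % (4 * m) = b' % (4 * m) := h5
      rwa [Nat.mod_eq_of_lt h1, Nat.mod_eq_of_lt h2] at h6
    · exact h3
  have hinjB : ∀ T : Finset ℕ, (∀ a ∈ T, ∀ b ∈ T, a < 4 * m ∧ b < 4 * m ∨ a = b) →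
      Set.InjOn (fun i => (C - i) % (4 * m)) T := by
    intro T hT a ha b' hb hab
    rcases hT a ha b' hb with ⟨h1, h2⟩ | h3
    · beta_reduce at hab
      rw [hmirror a h1.le, hmirror b' h2.le] at hab
      have h4 : C + (4 * m - a) ≡ C + (4 * m - b') [MOD 4 * m] := hab
      have h5 : (4 * m - a) ≡ (4 * m - b') [MOD 4 * m] := Nat.ModEq.add_left_cancel' C h4
      have h7 : (4 * m - a) + (a + b') ≡ (4 * m - b') + (a + b') [MOD 4 * m] := h5.add_right _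
      have e1 : (4 * m - a) + (a + b') = b' + 4 * m := by omega
      have e2 : (4 * m - b') + (a + b') = a + 4 * m := by omega
      rw [e1, e2] at h7
      have h8 : (b' + 4 * m) % (4 * m) = (a + 4 * m) % (4 * m) := h7
      rw [Nat.add_mod_right, Nat.add_mod_right, Nat.mod_eq_of_lt h1, Nat.mod_eq_of_lt h2] at h8
      exact h8.symm
    · exact h3
  have hsplit : ∀ (f : ℕ → ℕ), (∀ i ∈ S, f i < 4 * m - l) →
      (∀ T : Finset ℕ, (∀ a ∈ T, ∀ b ∈ T, a < 4 * m ∧ b < 4 * m ∨ a = b) → Set.InjOn f T) →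
      ∀ y : ℝ, 0 ≤ y → ∑ i ∈ S, y ^ (f i) ≤ 2 * ∑ r ∈ range (4 * m - l), y ^ r := by
    intro f hf hinj y hy
    rw [← sum_filter_add_sum_filter_not S (fun i => i < 4 * m), two_mul]
    refine add_le_add ?_ ?_
    · refine FC.sum_inj_le f _ _ (hinj _ ?_) (fun i hi => hf i (mem_filter.1 hi).1) y hy
      intro a ha b' hb
      exact Or.inl ⟨(mem_filter.1 ha).2, (mem_filter.1 hb).2⟩
    · refine FC.sum_inj_le f _ _ (hinj _ ?_) (fun i hi => hf i (mem_filter.1 hi).1) y hy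
      intro a ha b' hb
      right
      have h1 := mem_filter.1 ha
      have h2 := mem_filter.1 hb
      have := hS a h1.1
      have := hS b' h2.1
      omega
  have hgen : ∀ y : ℝ, 0 ≤ y → ∑ i ∈ S, |(x i : ℝ)| * (y ^ ((C + i) % (4 * m)) + y ^ ((C - i) % (4 * m))) ≤
      4 * B * ∑ r ∈ range (4 * m - l), y ^ r := by
    intro y hy
    have t1 := hsplit _ (fun i hi => (hrot i hi).1) hinjA y hy
    have t2 := hsplit _ (fun i hi => (hrot i hi).2) hinjB y hy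
    calc ∑ i ∈ S, |(x i : ℝ)| * (y ^ ((C + i) % (4 * m)) + y ^ ((C - i) % (4 * m))) ≤
        ∑ i ∈ S, B * (y ^ ((C + i) % (4 * m)) + y ^ ((C - i) % (4 * m))) :=
          sum_le_sum fun i hi => mul_le_mul_of_nonneg_right (hx i hi) (by positivity)
      _ = B * (∑ i ∈ S, y ^ ((C + i) % (4 * m)) + ∑ i ∈ S, y ^ ((C - i) % (4 * m))) := by
          rw [← mul_sum, sum_add_distrib]
      _ ≤ B * (2 * ∑ r ∈ range (4 * m - l), y ^ r + 2 * ∑ r ∈ range (4 * m - l), y ^ r) :=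
          mul_le_mul_of_nonneg_left (add_le_add t1 t2) hB0
      _ = _ := by ring
  have hB4 : 0 ≤ 4 * B := by linarith
  have b1 := (hgen (1 + √2) w_pos.le).trans (mul_le_mul_of_nonneg_left (geom_w (4 * m - l)) hB4)
  have b2 := (hgen |1 - √2| (abs_nonneg _)).trans (mul_le_mul_of_nonneg_left (geom_w' (4 * m - l)) hB4)
  have h2 := h1.trans (mul_le_mul_of_nonneg_left (mul_le_mul b1 b2 (sum_nonneg fun i _ => by positivity)
    (mul_nonneg hB4 (pow_pos w_pos _).le)) (by norm_num : (0 : ℝ) ≤ 16))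
  have hMr := M_lower h
  calc (1 + √2) ^ l * (Int.gcd (8 * d ^ 2 + 1) (∑ i ∈ S, x i * P i) : ℝ) ≤
      (1 + √2) ^ l * (16 * (4 * B * (1 + √2) ^ (4 * m - l) * (4 * B * 2))) :=
        mul_le_mul_of_nonneg_left h2 (pow_pos w_pos _).le
    _ = 512 * B ^ 2 * ((1 + √2) ^ l * (1 + √2) ^ (4 * m - l)) := by ring
    _ = 512 * B ^ 2 * (1 + √2) ^ (4 * m) := by
        rw [← pow_add]
        congr 2
        omega
    _ ≤ _ := mul_le_mul_of_nonneg_left hMr (by positivity)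

/-- the number of terms -/
theorem partC {m : ℕ} (hm : 0 < m) {b d : ℤ} (h : (d : ℝ) + b * √8 = (3 + √8) ^ m) (S : Finset ℕ)
    (hS : ∀ i ∈ S, i ≤ 4 * m) (x : ℕ → ℤ) (B : ℝ) (hx : ∀ i ∈ S, |(x i : ℝ)| ≤ B)
    (hnd : ¬ 8 * d ^ 2 + 1 ∣ 3 * ∑ i ∈ S, x i * P i) :
    4 * m < 2 * S.card + 1 ∨
    (1 + √2) ^ (4 * m / (2 * S.card + 1)) * (Int.gcd (8 * d ^ 2 + 1) (∑ i ∈ S, x i * P i) : ℝ) ≤
      512 * B ^ 2 * ((8 * d ^ 2 + 1 : ℤ) : ℝ) := by
  obtain ⟨l, hl⟩ : ∃ l, l = 4 * m / (2 * S.card + 1) := ⟨_, rfl⟩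
  rw [← hl]
  have hll : (2 * S.card + 1) * l ≤ 4 * m := by rw [hl]; exact Nat.mul_div_le _ _
  rcases Nat.eq_zero_or_pos l with h0 | h0
  · left
    rw [hl, Nat.div_eq_zero_iff] at h0
    omega
  · right
    obtain ⟨j, hj, hj2⟩ : ∃ j ∈ range (2 * S.card + 1),
        j ∉ S.image (fun i => i / l) ∪ S.image (fun i => (4 * m - i) / l) := by
      by_contra hcon
      push Not at hcon
      have h1 := card_le_card (show range (2 * S.card + 1) ⊆ _ from hcon)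
      rw [card_range] at h1
      have h2 := card_image_le (s := S) (f := fun i => i / l)
      have h3 := card_image_le (s := S) (f := fun i => (4 * m - i) / l)
      have h4 := card_union_le (S.image (fun i => i / l)) (S.image (fun i => (4 * m - i) / l))
      omega
    have hj1 := mem_range.1 hj
    have e : (j + 1) * l = j * l + l := by ring
    have hblock : ∀ r : ℕ, r / l ≠ j → r < j * l ∨ j * l + l ≤ r := by
      intro r hne
      rcases Nat.lt_or_gt_of_ne hne with h | h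
      · left
        rwa [Nat.div_lt_iff_lt_mul h0] at h
      · right
        have h' : j + 1 ≤ r / l := h
        rw [Nat.le_div_iff_mul_le h0] at h'
        omega
    refine partB hm h S hS x B hx (j * l) l ?_ ?_ h0 hnd
    · have : (j + 1) * l ≤ (2 * S.card + 1) * l := Nat.mul_le_mul_right _ (by omega)
      omega
    · intro i hi
      have hi1 := hS i hi
      refine ⟨hblock i fun h => hj2 (mem_union_left _ (mem_image.2 ⟨i, hi, h⟩)), ?_⟩
      have := hblock (4 * m - i) fun h => hj2 (mem_union_right _ (mem_image.2 ⟨i, hi, h⟩))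
      omega

/-- **Few terms.** -/
theorem partD {m : ℕ} (hm : 0 < m) {b d : ℤ} (h : (d : ℝ) + b * √8 = (3 + √8) ^ m) (S : Finset ℕ)
    (hS : ∀ i ∈ S, i ≤ 4 * m) (x : ℕ → ℤ) (B : ℝ) (hx : ∀ i ∈ S, |(x i : ℝ)| ≤ B)
    (hnd : ¬ 8 * d ^ 2 + 1 ∣ 3 * ∑ i ∈ S, x i * P i) :
    1 / 20 * (m : ℝ) ≤
      S.card * Real.log (B * (((8 * d ^ 2 + 1 : ℤ) : ℝ) / Int.gcd (8 * d ^ 2 + 1) (∑ i ∈ S, x i * P i))) := by
  have h1 := partC hm h S hS x B hx hnd
  have hM0 : (0 : ℤ) < 8 * d ^ 2 + 1 := by positivity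
  have hnd' : ¬ 8 * d ^ 2 + 1 ∣ ∑ i ∈ S, x i * P i := fun h => hnd (Dvd.dvd.mul_left h _)
  have hg := two_gcd_le hM0 hnd'
  have hg0 := gcd_pos (N := ∑ i ∈ S, x i * P i) hM0
  obtain ⟨i0, hi0, hxi0⟩ : ∃ i ∈ S, x i ≠ 0 := by
    by_contra hcon
    push Not at hcon
    apply hnd'
    rw [sum_eq_zero (fun i hi => by rw [hcon i hi, zero_mul])]
    exact dvd_zero _
  have hB := one_le_B hx hi0 hxi0
  have hk1 : 1 ≤ S.card := card_pos.2 ⟨i0, hi0⟩
  obtain ⟨g, hgg⟩ : ∃ g, g = Int.gcd (8 * d ^ 2 + 1) (∑ i ∈ S, x i * P i) := ⟨_, rfl⟩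
  rw [← hgg] at h1 hg hg0 ⊢
  obtain ⟨M, hM⟩ : ∃ M : ℤ, M = 8 * d ^ 2 + 1 := ⟨_, rfl⟩
  rw [← hM] at h1 hg hM0 ⊢
  obtain ⟨s, hs⟩ : ∃ s, s = S.card := ⟨_, rfl⟩
  rw [← hs] at h1 hk1 ⊢
  have hgr : (0 : ℝ) < g := by exact_mod_cast hg0
  have hMr : (0 : ℝ) < M := by exact_mod_cast hM0
  have hD : (2 : ℝ) ≤ (M : ℝ) / g := by
    rw [le_div_iff₀ hgr]; exact_mod_cast hg
  obtain ⟨T, hT⟩ : ∃ T, T = Real.log (B * ((M : ℝ) / g)) := ⟨_, rfl⟩
  have hBD : (2 : ℝ) ≤ B * ((M : ℝ) / g) := by nlinarith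
  have hlog : Real.log 2 ≤ T := by rw [hT]; exact Real.log_le_log (by norm_num) hBD
  have hl2 := Real.log_two_gt_d9
  have hsr : (1 : ℝ) ≤ s := by exact_mod_cast hk1
  rw [← hT]
  rcases h1 with h1 | h1
  · have h2 : (4 * m : ℝ) < 2 * s + 1 := by exact_mod_cast h1
    nlinarith
  · obtain ⟨t, ht⟩ : ∃ t, t = 4 * m / (2 * s + 1) := ⟨_, rfl⟩
    rw [← ht] at h1
    have h2 : (1 + √2) ^ t ≤ 512 * (B * (B * ((M : ℝ) / g))) := by
      have e : 512 * (B * (B * ((M : ℝ) / g))) = (512 * B ^ 2 * (M : ℝ)) / (g : ℝ) := by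
        field_simp
      rw [e, le_div_iff₀ hgr]
      exact h1
    have hBT : Real.log B ≤ T := by
      rw [hT]
      exact Real.log_le_log (by linarith) (by nlinarith)
    have h3 : (t : ℝ) * Real.log (1 + √2) ≤ Real.log 512 + (Real.log B + T) := by
      have := Real.log_le_log (pow_pos w_pos _) h2
      rw [Real.log_pow, Real.log_mul (by norm_num) (by positivity), Real.log_mul (by positivity) (by positivity),
        ← hT] at this
      exact_mod_cast this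
    have h512 : Real.log 512 = 9 * Real.log 2 := by
      have : (512 : ℝ) = 2 ^ 9 := by norm_num
      rw [this, Real.log_pow]
      norm_num
    have h4 : (4 * m : ℝ) ≤ (t + 1) * (3 * s) := by
      have h5 : 4 * m < (2 * s + 1) * (t + 1) := by
        have := Nat.lt_mul_div_succ (4 * m) (show 0 < 2 * s + 1 by omega)
        rwa [← ht] at this
      have h6 : (2 * s + 1) * (t + 1) ≤ (3 * s) * (t + 1) := Nat.mul_le_mul_right _ (by omega)
      have h7 : 4 * m ≤ (t + 1) * (3 * s) := by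
        rw [mul_comm (t + 1)]; omega
      exact_mod_cast h7
    have h8 : (t + 1 : ℝ) * Real.log (1 + √2) ≤ 13 * T := by
      have := log_w_le
      linarith
    have h9 : (t + 1 : ℝ) ≤ 26 * T := by
      have h10 := log_w_ge
      have h11 : (t + 1 : ℝ) * (1 / 2) ≤ (t + 1) * Real.log (1 + √2) :=
        mul_le_mul_of_nonneg_left h10 (by positivity)
      linarith
    have h12 : (4 * m : ℝ) ≤ 26 * T * (3 * s) := h4.trans (mul_le_mul_of_nonneg_right h9 (by positivity))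
    have h13 : 0 ≤ (s : ℝ) * T := mul_nonneg (by positivity) (by linarith)
    nlinarith

end Pool.Agent.Run7.h166.QC
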